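import Pool.Agent.H95.Nf1

set_option autoImplicit false

open CategoryTheory Function Pool.Agent.H95.NfDefs

/-- A finitary skeletal normal functor and a skeletal square of surjections between finite
compacta whose image square is not skeletal. -/
theorem Pool.Agent.Results.MP_2f5a6b_gt.No.result :
    ∃ F : Comp ⥤ Comp, Normal F ∧ Finitary F ∧ Skeletal F ∧
      ∃ (X' Y' X Y : Comp) (g : X' ⟶ Y') (p : X' ⟶ X) (q : Y' ⟶ Y) (f : X ⟶ Y),
        Finite X' ∧ Finite Y' ∧ Finite X ∧ Finite Y ∧ Surjective g ∧ Surjective p ∧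
        Surjective q ∧ Surjective f ∧ p ≫ f = g ≫ q ∧ SkelSq g p q f ∧
        ¬ SkelSq (F.map g) (F.map p) (F.map q) (F.map f) := by
  obtain ⟨X', Y', X, Y, g, p, q, f, a1, a2, a3, a4, a5, a6, a7, a8, a9, -, b, -, c⟩ :=
    Pool.Agent.H95.Nf1.notSq
  exact ⟨_, Pool.Agent.H95.Nf1.normal, Pool.Agent.H95.Nf1.finitary, Pool.Agent.H95.Nf1.skeletal,
    X', Y', X, Y, g, p, q, f, a1, a2, a3, a4, a5, a6, a7, a8, a9, b, c⟩
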